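import Mathlib

/-! # Even 1-subdivisions of dense graphs: definitions -/

set_option autoImplicit false

namespace EvenSub

/-- the fraction of `x ∈ X` that give the same colour to `u` and `v` -/
noncomputable def al {α : Type*} (c : α → α → Bool) (X : Finset α) (u v : α) : ℝ :=
  ((X.filter (fun x => c x u = c x v)).card : ℝ) / (X.card : ℝ)

/-- colours as signs -/
def sg (b : Bool) : ℝ := if b then 1 else -1

/-- mean of the row `x` on `U` -/
noncomputable def mean {α : Type*} (c : α → α → Bool) (U : Finset α) (x : α) : ℝ :=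
  (∑ u ∈ U, sg (c x u)) / (U.card : ℝ)

/-- covariance of the rows `x`, `x'` on `U` -/
noncomputable def cov {α : Type*} (c : α → α → Bool) (U : Finset α) (x x' : α) : ℝ :=
  (∑ u ∈ U, sg (c x u) * sg (c x' u)) / (U.card : ℝ) - mean c U x * mean c U x'

/-- the expectation of `F` over the uniformly random injections of `l` into `R`, extended by
`ψ` outside `l` -/
noncomputable def EI {V α : Type*} [DecidableEq V] [DecidableEq α] :
    List V → Finset α → (V → α) → ((V → α) → ℝ) → ℝ
  | [], _, ψ, F => F ψ
  | v :: l, R, ψ, F =>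
    (R.card : ℝ)⁻¹ * ∑ a ∈ R, EI l (R.erase a) (Function.update ψ v a) F

/-- the expectation over the uniformly random injections of `V` into `U` -/
noncomputable def Ex {V α : Type*} [Fintype V] [DecidableEq V] [DecidableEq α]
    (U : Finset α) (ψ : V → α) (F : (V → α) → ℝ) : ℝ :=
  EI (Finset.univ : Finset V).toList U ψ F

/-- a simple graph given by its edges `ι` and their end vertices -/
structure IsGr {V ι : Type*} (a b : ι → V) : Prop where
  ne : ∀ e, a e ≠ b e
  inj : ∀ e e', a e = a e' → b e = b e' → e = e'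
  inj' : ∀ e e', a e = b e' → b e = a e' → e = e'

/-- a set of edges no two of which meet -/
def IsMt {V ι : Type*} (a b : ι → V) (M : Finset ι) : Prop :=
  ∀ e ∈ M, ∀ e' ∈ M, e ≠ e' → a e ≠ a e' ∧ a e ≠ b e' ∧ b e ≠ a e' ∧ b e ≠ b e'

/-- the number of edges of `E` whose ends get the same value under `g ∘ φ` -/
def unc {V ι α : Type*} (a b : ι → V) (E : Finset ι) (g : α → Bool) (φ : V → α) : ℕ :=
  (E.filter (fun e => g (φ (a e)) = g (φ (b e)))).card

/-- the number of edges of `E` cut by both `g` and `g'` -/
def cut2 {V ι α : Type*} (a b : ι → V) (E : Finset ι) (g g' : α → Bool) (φ : V → α) : ℕ :=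
  (E.filter (fun e => g (φ (a e)) ≠ g (φ (b e)) ∧ g' (φ (a e)) ≠ g' (φ (b e)))).card

end EvenSub
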