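import Pool.Agent.Lib.MP_0dbebe_co.Q2.Defs

/-! # The expectation over random injections: basic facts -/

set_option autoImplicit false

open Finset

namespace EvenSub

section EI

variable {V α : Type*} [DecidableEq V] [DecidableEq α]

theorem EI_nil (R : Finset α) (ψ : V → α) (F : (V → α) → ℝ) : EI [] R ψ F = F ψ := by
  rw [EI]

theorem EI_cons (v : V) (l : List V) (R : Finset α) (ψ : V → α) (F : (V → α) → ℝ) :
    EI (v :: l) R ψ F =
      (R.card : ℝ)⁻¹ * ∑ a ∈ R, EI l (R.erase a) (Function.update ψ v a) F := by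
  rw [EI]

theorem EI_mono (l : List V) (hl : l.Nodup) (R : Finset α) (ψ : V → α) (F G : (V → α) → ℝ)
    (h : ∀ φ : V → α, (∀ v ∈ l, φ v ∈ R) → (∀ v ∈ l, ∀ w ∈ l, φ v = φ w → v = w) →
      (∀ v, v ∉ l → φ v = ψ v) → F φ ≤ G φ) :
    EI l R ψ F ≤ EI l R ψ G := by
  induction l generalizing R ψ with
  | nil =>
    rw [EI_nil, EI_nil]
    exact h ψ (by simp) (by simp) (fun _ _ => rfl)
  | cons v l ih =>
    rw [EI_cons, EI_cons]
    rw [List.nodup_cons] at hl
    apply mul_le_mul_of_nonneg_left _ (by positivity)
    apply Finset.sum_le_sum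
    intro a ha
    apply ih hl.2
    intro φ h1 h2 h3
    have hv : φ v = a := by
      rw [h3 v hl.1, Function.update_self]
    apply h φ
    · intro w hw
      rw [List.mem_cons] at hw
      rcases hw with rfl | hw
      · rw [hv]; exact ha
      · exact Finset.mem_of_mem_erase (h1 w hw)
    · intro w hw w' hw' hww
      rw [List.mem_cons] at hw hw'
      rcases hw with rfl | hw <;> rcases hw' with rfl | hw'
      · rfl
      · exfalso
        have := h1 w' hw'
        rw [← hww, hv] at this
        exact Finset.notMem_erase a R this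
      · exfalso
        have := h1 w hw
        rw [hww, hv] at this
        exact Finset.notMem_erase a R this
      · exact h2 w hw w' hw' hww
    · intro w hw
      rw [List.mem_cons, not_or] at hw
      rw [h3 w hw.2, Function.update_of_ne hw.1]

theorem EI_add (l : List V) (R : Finset α) (ψ : V → α) (F G : (V → α) → ℝ) :
    EI l R ψ (fun φ => F φ + G φ) = EI l R ψ F + EI l R ψ G := by
  induction l generalizing R ψ with
  | nil => rw [EI_nil, EI_nil, EI_nil]
  | cons v l ih =>
    rw [EI_cons, EI_cons, EI_cons, ← mul_add, ← Finset.sum_add_distrib]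
    congr 1
    apply Finset.sum_congr rfl
    intro a _
    exact ih _ _

theorem EI_smul (l : List V) (R : Finset α) (ψ : V → α) (r : ℝ) (F : (V → α) → ℝ) :
    EI l R ψ (fun φ => r * F φ) = r * EI l R ψ F := by
  induction l generalizing R ψ with
  | nil => rw [EI_nil, EI_nil]
  | cons v l ih =>
    rw [EI_cons, EI_cons, mul_left_comm, Finset.mul_sum (a := r)]
    congr 1
    apply Finset.sum_congr rfl
    intro a _
    exact ih _ _

theorem EI_const (l : List V) (R : Finset α) (ψ : V → α) (h : l.length ≤ R.card) (r : ℝ) :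
    EI l R ψ (fun _ => r) = r := by
  induction l generalizing R ψ with
  | nil => rw [EI_nil]
  | cons v l ih =>
    rw [List.length_cons] at h
    have hR : (R.card : ℝ) ≠ 0 := by
      have : 0 < R.card := by omega
      positivity
    have h1 : ∑ a ∈ R, EI l (R.erase a) (Function.update ψ v a) (fun _ => r) = ∑ a ∈ R, r := by
      apply Finset.sum_congr rfl
      intro a ha
      apply ih
      rw [Finset.card_erase_of_mem ha]
      omega
    rw [EI_cons, h1, Finset.sum_const, nsmul_eq_mul, ← mul_assoc, inv_mul_cancel₀ hR, one_mul]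

theorem EI_exists (l : List V) (hl : l.Nodup) (R : Finset α) (ψ : V → α)
    (h : l.length ≤ R.card) (F : (V → α) → ℝ) :
    ∃ φ : V → α, (∀ v ∈ l, φ v ∈ R) ∧ (∀ v ∈ l, ∀ w ∈ l, φ v = φ w → v = w) ∧
      (∀ v, v ∉ l → φ v = ψ v) ∧ F φ ≤ EI l R ψ F := by
  induction l generalizing R ψ with
  | nil => exact ⟨ψ, by simp, by simp, fun _ _ => rfl, by rw [EI_nil]⟩
  | cons v l ih =>
    rw [List.length_cons] at h
    rw [List.nodup_cons] at hl
    have hR0 : 0 < R.card := by omega
    have hne : R.Nonempty := Finset.card_pos.1 hR0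
    obtain ⟨a, ha, hmin⟩ := Finset.exists_min_image R
      (fun a => EI l (R.erase a) (Function.update ψ v a) F) hne
    obtain ⟨φ, h1, h2, h3, h4⟩ := ih hl.2 (R.erase a) (Function.update ψ v a) (by
      rw [Finset.card_erase_of_mem ha]; omega)
    have hv : φ v = a := by
      rw [h3 v hl.1, Function.update_self]
    refine ⟨φ, ?_, ?_, ?_, ?_⟩
    · intro w hw
      rw [List.mem_cons] at hw
      rcases hw with rfl | hw
      · rw [hv]; exact ha
      · exact Finset.mem_of_mem_erase (h1 w hw)
    · intro w hw w' hw' hww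
      rw [List.mem_cons] at hw hw'
      rcases hw with rfl | hw <;> rcases hw' with rfl | hw'
      · rfl
      · exfalso
        have := h1 w' hw'
        rw [← hww, hv] at this
        exact Finset.notMem_erase a R this
      · exfalso
        have := h1 w hw
        rw [hww, hv] at this
        exact Finset.notMem_erase a R this
      · exact h2 w hw w' hw' hww
    · intro w hw
      rw [List.mem_cons, not_or] at hw
      rw [h3 w hw.2, Function.update_of_ne hw.1]
    · rw [EI_cons]
      have hR : (0 : ℝ) < R.card := by positivity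
      have h5 : (R.card : ℝ) * EI l (R.erase a) (Function.update ψ v a) F ≤
          ∑ a ∈ R, EI l (R.erase a) (Function.update ψ v a) F := by
        rw [← nsmul_eq_mul]
        exact Finset.card_nsmul_le_sum _ _ _ hmin
      calc F φ ≤ EI l (R.erase a) (Function.update ψ v a) F := h4
        _ = (R.card : ℝ)⁻¹ * ((R.card : ℝ) * EI l (R.erase a) (Function.update ψ v a) F) := by
            rw [← mul_assoc, inv_mul_cancel₀ hR.ne', one_mul]
        _ ≤ _ := mul_le_mul_of_nonneg_left h5 (by positivity)

theorem EI_swap (v w : V) (hvw : v ≠ w) (l : List V) (R : Finset α) (ψ : V → α)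
    (F : (V → α) → ℝ) : EI (v :: w :: l) R ψ F = EI (w :: v :: l) R ψ F := by
  have key : ∀ x y : V, x ≠ y → EI (x :: y :: l) R ψ F =
      (R.card : ℝ)⁻¹ * ((R.card - 1 : ℕ) : ℝ)⁻¹ * ∑ a ∈ R, ∑ b ∈ R.erase a,
        EI l ((R.erase a).erase b) (Function.update (Function.update ψ x a) y b) F := by
    intro x y _
    rw [EI_cons, mul_assoc, Finset.mul_sum (a := (((R.card - 1 : ℕ) : ℝ))⁻¹)]
    congr 1
    apply Finset.sum_congr rfl
    intro a ha
    rw [EI_cons, Finset.card_erase_of_mem ha]
  rw [key v w hvw, key w v hvw.symm]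
  congr 1
  rw [Finset.sum_comm' (s := R) (t := fun a => R.erase a) (t' := R) (s' := fun a => R.erase a)]
  · apply Finset.sum_congr rfl
    intro b _
    apply Finset.sum_congr rfl
    intro a _
    rw [Finset.erase_right_comm, Function.update_comm hvw]
  · intro x y
    rw [Finset.mem_erase, Finset.mem_erase]
    constructor
    · rintro ⟨h1, h2, h3⟩
      exact ⟨⟨fun h => h2 h.symm, h1⟩, h3⟩
    · rintro ⟨⟨h1, h2⟩, h3⟩
      exact ⟨h2, fun h => h1 h.symm, h3⟩

theorem EI_perm (l l' : List V) (hl : l.Nodup) (hp : l.Perm l') (R : Finset α) (ψ : V → α)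
    (F : (V → α) → ℝ) : EI l R ψ F = EI l' R ψ F := by
  induction hp generalizing R ψ with
  | nil => rfl
  | cons x _ ih =>
    rw [EI_cons, EI_cons]
    congr 1
    apply Finset.sum_congr rfl
    intro a _
    exact ih (List.nodup_cons.1 hl).2 _ _
  | swap x y l =>
    apply EI_swap
    intro h
    rw [List.nodup_cons] at hl
    exact hl.1 (by rw [h]; exact List.mem_cons_self)
  | trans h1 _ ih1 ih2 => rw [ih1 hl, ih2 (h1.nodup_iff.1 hl)]

end EI

end EvenSub
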